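import Pool.Agent.Q94.SnowB

/-!
# Kantorovich potentials need not be unique when the source support is only (path-)connected

Counterexample for the quadratic cost `|x - y|²` in `ℝ⁸`: `ρ = μ` is the image of Lebesgue measure
on `[0,1]` under a continuous `γ` with `|s - t| ≤ |γ(s) - γ(t)|²` (a Weierstrass type snowflake
arc, `γ_j(t) = 7 ∑_i 2^{-(4i+j)} exp(iπ 4^{4i+j} t)`, `j = 0,…,3`). Both `(0, 0)` and
`(u, -u)` with `u = γ⁻¹` on the arc are optimal.
-/

open MeasureTheory Q94.KP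

theorem Pool.Agent.Results.MP_ff06a2_an.NotUnique.result :
    (∃ ρ : Measure (E 8), IsProbabilityMeasure ρ ∧ IsCompact ρ.support ∧
      IsPathConnected ρ.support ∧
      Hyp ρ ρ (fun x y => ‖x - y‖ ^ 2) (fun x => 2 * ‖x‖ ^ 2) (fun y => 2 * ‖y‖ ^ 2) ∧
      ¬ UniqueUpToConst ρ ρ (fun x y => ‖x - y‖ ^ 2)) ∧
    ¬ ∀ (d : ℕ) (ρ μ : Measure (E d)) (c : E d → E d → ℝ) (a b : E d → ℝ),
      IsProbabilityMeasure ρ → IsProbabilityMeasure μ → Hyp ρ μ c a b →
      IsConnected ρ.support →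
      (∃ φ ψ : E d → ℝ, IsOptimal ρ μ c φ ψ) ∧ UniqueUpToConst ρ μ c := by
  have h1 : ¬ UniqueUpToConst ρ ρ (fun x y => ‖x - y‖ ^ 2) := by
    intro h
    obtain ⟨l, hl, _⟩ := h _ _ _ _ optimal_zero optimal_one
    exact not_const l hl
  refine ⟨⟨ρ, inferInstance, ?_, ?_, hyp, h1⟩, fun h => ?_⟩
  · rw [support_ρ]; exact isCompact_K
  · rw [support_ρ]; exact pathConnected
  · refine h1 (h 8 ρ ρ _ _ _ inferInstance inferInstance hyp ?_).2
    rw [support_ρ]
    exact pathConnected.isConnected
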